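import Pool.Agent.W_a3c811_h30x.Fin

/-! The characteristic polynomials of Frobenius on the kernels of the powers of the monodromy
operator. -/

noncomputable section

set_option linter.unusedSectionVars false

namespace Pool.Agent.H79L

open Module

universe v w

variable {K : Type v} [Field K] {E : Type w} [AddCommGroup E] [Module K E]
  {N f : Module.End K E} {s : ℤ → Module.End K E} {P : Finset ℤ}

/-- `f` maps the range of `N ^ (m + 1)` into the range of `N ^ m`. -/
theorem Sl.f_range (h : Sl N f s P) (m : ℕ) (x : E) : ∃ y, f ((N ^ (m + 1)) x) = (N ^ m) y := by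
  have hs : ∀ p, s p (s p x) = s p x := fun p => LinearMap.congr_fun (h.idem p) x
  have h2 : ∀ p, ∃ y, f ((N ^ (m + 1)) (s p x)) = (N ^ m) y := fun p => ⟨_, h.f_Npow (hs p) m⟩
  choose g hg using h2
  refine ⟨∑ p ∈ P, g p, ?_⟩
  have h1 : x = ∑ p ∈ P, s p x := by
    rw [← LinearMap.sum_apply, h.sum]; rfl
  calc f ((N ^ (m + 1)) x) = f ((N ^ (m + 1)) (∑ p ∈ P, s p x)) := by rw [← h1]
    _ = ∑ p ∈ P, f ((N ^ (m + 1)) (s p x)) := by rw [map_sum, map_sum]
    _ = ∑ p ∈ P, (N ^ m) (g p) := Finset.sum_congr rfl fun p _ => hg p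
    _ = (N ^ m) (∑ p ∈ P, g p) := by rw [map_sum]

theorem Sl.ker_pow [CharZero K] (h : Sl N f s P) : ∀ (j : ℕ) (x : E),
    (f ^ j) ((N ^ j) x) = 0 → (N ^ j) x = 0 := by
  intro j
  induction j with
  | zero => intro x hx; simpa using hx
  | succ j ih =>
    intro x hx
    obtain ⟨y, hy⟩ := h.f_range j x
    rw [pow_succ f j, Module.End.mul_apply, hy] at hx
    have h1 := ih y hx
    rw [← hy, pow_succ' N j, Module.End.mul_apply] at h1
    rw [pow_succ' N j, Module.End.mul_apply]
    exact h.ker_f _ h1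

end Pool.Agent.H79L

namespace Pool.Agent.H62S

open Module TensorProduct Polynomial Pool.Agent.WeilH_h6 Pool.Agent.WeilH_h6.VarClass
  Pool.Agent.H62A Pool.Agent.H79L

universe uA u v w

theorem pow_nf {K : Type v} [Field K] {E : Type w} [AddCommGroup E] [Module K E]
    {n f : Module.End K E} {q : K} (h : n * f = q • (f * n)) (j : ℕ) :
    n ^ j * f = q ^ j • (f * n ^ j) := by
  induction j with
  | zero => simp
  | succ j ih =>
    rw [pow_succ n j, mul_assoc, h, mul_smul_comm, ← mul_assoc, ih, smul_mul_assoc, smul_smul,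
      mul_assoc, ← pow_succ, pow_succ' q j]

theorem Nice.indep_pow {I : Type} {K : I → Type v} [∀ l, Field (K l)] [∀ l, CharZero (K l)]
    [Nonempty I] {S : Sys.{v, w} K} {q : ℚ} (h : Nice.{uA} S q) :
    ∃ (A : ℚ[X]) (B : ℕ → ℚ[X]), ∀ l, CharpolyOn (S.φ l) (S.U l) A ∧
      ∀ j : ℕ, CharpolyOn (S.φ l) (kerIn (S.ν l ^ j) (S.U l)) (B j) := by
  obtain ⟨A, hA⟩ := h.T.charpoly_range h.f h.g h.gg (by
    rintro l _ ⟨y, rfl⟩
    rw [← Module.End.mul_apply, h.fg, Module.End.mul_apply]
    exact ⟨_, rfl⟩)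
  have key : ∀ j : ℕ, ∃ P : ℚ[X], ∀ l, CharpolyOn (h.T.ρ l h.f)
      (LinearMap.range (h.T.ρ l h.g) ⊓ LinearMap.ker (h.T.ρ l (h.n ^ j))) P := by
    intro j
    obtain ⟨hq, hhq⟩ := exists_quasi h.T (h.n ^ j) (h.y ^ j)
      (fun l x hx => by
        rw [map_pow, map_pow] at hx
        rw [map_pow]
        exact (h.sl l).ker_pow j x hx)
      (fun l x hx => by
        rw [map_pow, map_pow] at hx
        rw [map_pow]
        exact (h.sl l).symm.ker_pow j x hx)
    refine charpoly_kerT h.T h.f (h.n ^ j) h.g hq (q ^ j) h.gg h.fg (fun l => ?_) (fun l => ?_) hhq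
    · rw [map_pow]
      exact ((show Commute (h.T.ρ l h.n) (h.T.ρ l h.g) from h.ng l).pow_left j).eq
    · rw [map_pow, Rat.cast_pow]
      exact pow_nf (h.nf l) j
  choose B hB using key
  refine ⟨A, B, fun l => ⟨?_, fun j => ?_⟩⟩
  · have := hA l
    rw [h.hf, h.rg] at this
    exact this
  · have := hB j l
    rw [map_pow, h.hf, h.rg, h.hn] at this
    exact this

end Pool.Agent.H62S
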